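import Pool.Agent.Mg.Fee26cf.G97549f

set_option autoImplicit false

namespace Pool.Agent.Results.MP_ee26cf_co.EveryIndex

/-- For every index `j ≥ 2` and every `K` there is a graph of chromatic number `j` whose
coefficients in the falling-factorial basis satisfy `K * b (j+1) ^ 2 < b j * b (j+2)`;
for `j = 2` the graph has maximum degree at most four. -/
theorem result :
    ∀ j : ℕ, 2 ≤ j → ∀ K : ℕ, ∃ (p : ℕ) (G : SimpleGraph (Fin p)) (b : ℕ → ℕ),
      (∀ k : ℕ, b k =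
        {P : Finpartition (Finset.univ : Finset (Fin p)) |
          P.parts.card = k ∧ ∀ s ∈ P.parts, G.IsIndepSet (↑s : Set (Fin p))}.ncard) ∧
      G.chromaticNumber = (j : ℕ∞) ∧ j + 2 ≤ p ∧ 0 < b (j + 1) ∧
      K * b (j + 1) ^ 2 < b j * b (j + 2) ∧
      (j = 2 → ∀ v : Fin p, (G.neighborSet v).ncard ≤ 4) := by
  intro j hj K
  obtain ⟨m, rfl⟩ := Nat.exists_eq_add_of_le' hj
  obtain ⟨p, G, h1, h2, h3, h4, h5⟩ := Pool.Agent.MP_ee26cf_co.main m K
  exact ⟨p, G, fun k => (Pool.Agent.MP_ee26cf_co.Ptn G k).ncard, fun _ => rfl, h1, h2, h3, h4,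
    fun h => h5 (by omega)⟩

end Pool.Agent.Results.MP_ee26cf_co.EveryIndex
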