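import Pool.Agent.MP_ee26cf_co.LI.Few3

set_option autoImplicit false

namespace Pool.Agent.Results.MP_ee26cf_co.FewCycles

/-- Every finite graph that becomes a forest after deleting at most `μ` edges and has at least
`10 ^ 6 (μ+1) ^ 3 (⌊log₂ (μ+1)⌋ + 1)` vertices satisfies `b j * b (j+2) < b (j+1) ^ 2` at every
index `j` where the middle coefficient is nonzero. -/
theorem result :
    ∀ (V : Type) [Fintype V] [DecidableEq V] (G : SimpleGraph V) (b : ℕ → ℕ),
      (∀ k : ℕ, b k =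
        {P : Finpartition (Finset.univ : Finset V) |
          P.parts.card = k ∧ ∀ s ∈ P.parts, G.IsIndepSet (↑s : Set V)}.ncard) →
      ∀ (μ : ℕ) (X : Set (Sym2 V)), X.ncard ≤ μ → (G.deleteEdges X).IsAcyclic →
      10 ^ 6 * (μ + 1) ^ 3 * (Nat.log 2 (μ + 1) + 1) ≤ Fintype.card V →
      ∀ j : ℕ, 0 < b (j + 1) → b j * b (j + 2) < b (j + 1) ^ 2 := by
  intro V _ _ G b hb μ X hX hF hn j
  rw [hb, hb, hb]
  exact Pool.Agent.MP_ee26cf_co.LI.few_cycles G hX hF hn j

end Pool.Agent.Results.MP_ee26cf_co.FewCycles
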