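import Pool.Agent.MP_ee26cf_co.LI.Large

set_option autoImplicit false

namespace Pool.Agent.Results.MP_ee26cf_co.LargeIndex

/-- For every finite graph with all degrees at most `D` (where `D ≥ 1`), the coefficients of the
chromatic polynomial in the falling-factorial basis satisfy `b j * b (j+2) < b (j+1) ^ 2` at every
index `j ≥ 60 * D` with `j + 1` at most the number of vertices. -/
theorem result :
    ∀ (V : Type) [Fintype V] [DecidableEq V] (G : SimpleGraph V) (b : ℕ → ℕ),
      (∀ k : ℕ, b k =
        {P : Finpartition (Finset.univ : Finset V) |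
          P.parts.card = k ∧ ∀ s ∈ P.parts, G.IsIndepSet (↑s : Set V)}.ncard) →
      ∀ D : ℕ, 1 ≤ D → (∀ v : V, (G.neighborSet v).ncard ≤ D) →
      ∀ j : ℕ, 60 * D ≤ j → j + 1 ≤ Fintype.card V → b j * b (j + 2) < b (j + 1) ^ 2 := by
  intro V _ _ G b hb D hD hG j hj hn
  rw [hb, hb, hb]
  exact Pool.Agent.MP_ee26cf_co.LI.large G hD hG hj hn

end Pool.Agent.Results.MP_ee26cf_co.LargeIndex
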