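import Pool.Agent.MP_ee26cf_co.LI.Uni

set_option autoImplicit false

namespace Pool.Agent.Results.MP_ee26cf_co.Unimodal

/-- For every finite graph with all degrees at most `D` (where `D ≥ 1`) and at least
`60 D (2 ⌊log₂ (60 D)⌋ + 3)` vertices, the coefficients of the chromatic polynomial in the
falling-factorial basis are strictly unimodal: apart from zeros they increase strictly up to an
index `m`, and decrease strictly from `m + 1` on, with `b (m+1) ≤ b m`. -/
theorem result :
    ∀ (V : Type) [Fintype V] [DecidableEq V] (G : SimpleGraph V) (b : ℕ → ℕ),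
      (∀ k : ℕ, b k =
        {P : Finpartition (Finset.univ : Finset V) |
          P.parts.card = k ∧ ∀ s ∈ P.parts, G.IsIndepSet (↑s : Set V)}.ncard) →
      ∀ D : ℕ, 1 ≤ D → (∀ v : V, (G.neighborSet v).ncard ≤ D) →
      60 * D * (2 * Nat.log 2 (60 * D) + 3) ≤ Fintype.card V →
      ∃ m : ℕ, (∀ i : ℕ, i < m → b i = 0 ∨ b i < b (i + 1)) ∧ b (m + 1) ≤ b m ∧
        ∀ i : ℕ, m < i → b (i + 1) = 0 ∨ b (i + 1) < b i := by
  intro V _ _ G b hb D hD hG hn
  simp only [hb]
  exact Pool.Agent.MP_ee26cf_co.LI.unimodal G hD hG hn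

end Pool.Agent.Results.MP_ee26cf_co.Unimodal
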